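import Pool.Agent.Helper5.HG.BTL
import Pool.Agent.Helper13.HG2.Defs

/-!
# HG2, block BTLR: the sieve in a number field, with prescribed quadratic characters

All primes `q` with `K < nm q ≤ Y` are sieved out. The factor `∏ (1 - 1 / nm q)` over the primes of `MM` is kept in
the count of the classes, so that the primes of `MM` are not lost. `t = log h`, `r = ⌈3 log t + 4 C⌉`.
-/

set_option autoImplicit false

namespace Pool.Agent.HG

open NumberField IsDedekindDomain Finset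

section params

open Real Filter Topology

private theorem ev5R {D : ℕ} (hD : 1 ≤ D) {C : ℝ} :
    ∀ᶠ t : ℝ in atTop, 1 ≤ t ∧ 2 * (3 * log t + 4 * C + 1) ≤ t ^ (1 / 2 : ℝ) / (4 * D) ∧
      D * 2 ^ D * exp C * t ^ 2 ≤ exp (t / (2 * D)) := by
  have hD0 : (0 : ℝ) < D := by exact_mod_cast hD
  have hp : Tendsto (fun t : ℝ => t ^ (1 / 2 : ℝ)) atTop atTop := tendsto_rpow_atTop (by norm_num)
  have hl := isLittleO_log_rpow_atTop (r := 1 / 2) (by norm_num)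
  have hx := isLittleO_pow_exp_pos_mul_atTop (k := 2) (b := 1 / (2 * D)) (by positivity)
  have c0 : 0 < D * 2 ^ D * exp C := by positivity
  have e2 := hl.bound (show (0 : ℝ) < 1 / (48 * D) by positivity)
  have e3 := hx.bound (show (0 : ℝ) < 1 / (D * 2 ^ D * exp C) by positivity)
  filter_upwards [eventually_ge_atTop 1, e2, e3,
    hp.eventually_ge_atTop (16 * D * (4 * C + 1))] with t t1 h2 h3 h6
  have t0 : 0 < t := by linarith
  have l0 : 0 ≤ log t := log_nonneg t1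
  have p0 : 0 ≤ t ^ (1 / 2 : ℝ) := rpow_nonneg t0.le _
  rw [norm_eq_abs, norm_eq_abs, abs_of_nonneg l0, abs_of_nonneg p0] at h2
  refine ⟨t1, ?_, ?_⟩
  · have h7 : 4 * C + 1 ≤ t ^ (1 / 2 : ℝ) / (16 * D) := by
      rw [le_div_iff₀ (by positivity)]
      linarith
    have h8 : 1 / (48 * D) * t ^ (1 / 2 : ℝ) = t ^ (1 / 2 : ℝ) / (16 * D) / 3 := by
      field_simp
      ring
    have h9 : t ^ (1 / 2 : ℝ) / (4 * D) = 4 * (t ^ (1 / 2 : ℝ) / (16 * D)) := by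
      field_simp
      ring
    rw [h8] at h2
    rw [h9]
    linarith
  · rw [norm_eq_abs, norm_eq_abs, abs_of_nonneg (by positivity), abs_of_pos (exp_pos _)] at h3
    have h7 := mul_le_mul_of_nonneg_left h3 c0.le
    rw [← mul_assoc, mul_one_div_cancel c0.ne', one_mul] at h7
    rw [show t / (2 * D) = 1 / (2 * D) * t by ring]
    exact h7

/-- everything that is needed from the size of `h` -/
theorem par5R {D : ℕ} (hD : 1 ≤ D) {C : ℝ} (hC : 0 ≤ C) :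
    ∃ h₀ : ℕ, ∀ h : ℕ, h₀ ≤ h → ∃ r : ℕ, ∀ Y : ℕ, 2 ≤ Y → log Y ≤ log h ^ (1 / 2 : ℝ) →
      exp (-(4 * r)) * exp (8 * (log (log Y) + C)) ≤ 1 / log Y ∧
      ∀ M N : ℝ, 0 < N → M ≤ (h : ℝ) ^ ((1 : ℝ) / (4 * D)) * Y ^ (2 * r) →
        (h : ℝ) ^ ((1 : ℝ) / D) ≤ N → M ≤ N ∧
        (D * 2 ^ D * M / N) * exp (log (log Y) + C) ≤ 1 / log Y := by
  have hD0 : (0 : ℝ) < D := by exact_mod_cast hD
  obtain ⟨h₀, hh₀⟩ := eventually_atTop.1
    ((tendsto_log_atTop.comp tendsto_natCast_atTop_atTop).eventually (ev5R (C := C) hD))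
  refine ⟨max h₀ 1, fun h hh => ?_⟩
  have hh1 : 1 ≤ h := (le_max_right _ _).trans hh
  have hpos : (0 : ℝ) < h := by exact_mod_cast hh1
  have key := hh₀ h ((le_max_left _ _).trans hh)
  simp only [Function.comp] at key
  obtain ⟨t, ht⟩ : ∃ t, t = log (h : ℝ) := ⟨_, rfl⟩
  have hexp : (h : ℝ) = exp t := by rw [ht, exp_log hpos]
  rw [← ht] at key ⊢
  obtain ⟨t1, h6, h7⟩ := key
  have t0 : 0 < t := by linarith
  have l0 : 0 ≤ log t := log_nonneg t1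
  obtain ⟨r, hr⟩ : ∃ r : ℕ, r = ⌈3 * log t + 4 * C⌉₊ := ⟨_, rfl⟩
  have hr1 : 3 * log t + 4 * C ≤ r := by rw [hr]; exact Nat.le_ceil _
  have hr2 : (r : ℝ) < 3 * log t + 4 * C + 1 := by
    rw [hr]
    exact Nat.ceil_lt_add_one (by linarith)
  refine ⟨r, fun Y hY hYt => ?_⟩
  have hY0 : (0 : ℝ) < Y := by exact_mod_cast (by omega : 0 < Y)
  have hlY : 0 < log Y := log_pos (by exact_mod_cast (by omega : 1 < Y))
  have hs0 : 0 < t ^ (1 / 2 : ℝ) := rpow_pos_of_pos t0 _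
  have hss : t ^ (1 / 2 : ℝ) * t ^ (1 / 2 : ℝ) = t := by
    rw [← rpow_add t0]
    norm_num
  have hll : log (log Y) ≤ 1 / 2 * log t := by
    have := log_le_log hlY hYt
    rwa [log_rpow t0] at this
  have hYY : log Y * log Y ≤ t := by
    rw [← hss]
    exact mul_le_mul hYt hYt hlY.le hs0.le
  constructor
  · rw [← exp_add]
    have e1 : -(4 * (r : ℝ)) + 8 * (log (log Y) + C) ≤ -log (log Y) := by linarith
    calc exp (-(4 * (r : ℝ)) + 8 * (log (log Y) + C)) ≤ exp (-log (log Y)) := exp_le_exp.2 e1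
      _ = 1 / log Y := by rw [exp_neg, exp_log hlY, one_div]
  · intro M N hN hM hN1
    have e1 : (h : ℝ) ^ ((1 : ℝ) / (4 * D)) = exp (t / (4 * D)) := by
      rw [rpow_def_of_pos hpos, ← ht]
      congr 1
      ring
    have e2 : (h : ℝ) ^ ((1 : ℝ) / D) = exp (t / D) := by
      rw [rpow_def_of_pos hpos, ← ht]
      congr 1
      ring
    have e3 : (Y : ℝ) ^ (2 * r) ≤ exp (t / (4 * D)) := by
      calc (Y : ℝ) ^ (2 * r) = exp (log Y) ^ (2 * r) := by rw [exp_log hY0]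
        _ = exp (2 * r * log Y) := by rw [← exp_nat_mul]; push_cast; rfl
        _ ≤ exp (t / (4 * D)) := by
          apply exp_le_exp.2
          have e4 : 2 * (r : ℝ) ≤ t ^ (1 / 2 : ℝ) / (4 * D) := by linarith
          calc 2 * (r : ℝ) * log Y ≤ t ^ (1 / 2 : ℝ) / (4 * D) * t ^ (1 / 2 : ℝ) :=
                mul_le_mul e4 hYt hlY.le (by positivity)
            _ = (t ^ (1 / 2 : ℝ) * t ^ (1 / 2 : ℝ)) / (4 * D) := by ring
            _ = t / (4 * D) := by rw [hss]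
    rw [e1] at hM
    rw [e2] at hN1
    have e5 : M ≤ exp (t / (2 * D)) := by
      refine hM.trans ?_
      calc exp (t / (4 * D)) * (Y : ℝ) ^ (2 * r) ≤ exp (t / (4 * D)) * exp (t / (4 * D)) :=
            mul_le_mul_of_nonneg_left e3 (exp_pos _).le
        _ = exp (t / (2 * D)) := by
            rw [← exp_add]
            congr 1
            field_simp
            ring
    have e6 : exp (t / (2 * D)) * exp (t / (2 * D)) = exp (t / D) := by
      rw [← exp_add]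
      congr 1
      field_simp
      ring
    have e7 : (1 : ℝ) ≤ exp (t / (2 * D)) := by
      have : 0 ≤ t / (2 * D) := by positivity
      linarith [add_one_le_exp (t / (2 * D))]
    constructor
    · nlinarith
    · rw [exp_add, exp_log hlY, div_mul_eq_mul_div, div_le_div_iff₀ hN hlY]
      have e9 : 0 ≤ (D : ℝ) * 2 ^ D * exp C := by positivity
      have e10 : log Y * log Y ≤ t ^ 2 := by nlinarith
      have e11 : 0 ≤ (D : ℝ) * 2 ^ D * exp C * (log Y * log Y) := by positivity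
      calc (D : ℝ) * 2 ^ D * M * (log Y * exp C) * log Y
          = (D * 2 ^ D * exp C * (log Y * log Y)) * M := by ring
        _ ≤ (D * 2 ^ D * exp C * (log Y * log Y)) * exp (t / (2 * D)) :=
            mul_le_mul_of_nonneg_left e5 e11
        _ ≤ (D * 2 ^ D * exp C * t ^ 2) * exp (t / (2 * D)) :=
            mul_le_mul_of_nonneg_right (mul_le_mul_of_nonneg_left e10 e9) (exp_pos _).le
        _ ≤ exp (t / (2 * D)) * exp (t / (2 * D)) :=
            mul_le_mul_of_nonneg_right h7 (exp_pos _).le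
        _ = exp (t / D) := e6
        _ ≤ 1 * N := by linarith

end params

section

variable {k : Type} [Field k] [NumberField k]

/-- Mertens for the primes of the sieve and of `MM` -/
theorem mert5R {B : ℕ → Finset (Pr k)} (hB : ∀ x v, v ∈ B x ↔ nm v ≤ x) {C : ℝ}
    (hC : ∀ x : ℕ, 2 ≤ x → |∑ v ∈ B x, (1 : ℝ) / nm v - Real.log (Real.log x)| ≤ C) (K : ℝ)
    (hK : 1 ≤ K) {Y : ℕ} (hY : 2 ≤ Y) (MM Q : Finset (Pr k))
    (hQ : ∀ q, q ∈ Q ↔ K < nm q ∧ nm q ≤ Y ∧ q ∉ MM) :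
    (∏ q ∈ MM, (1 - (1 : ℝ) / nm q)) * ∏ q ∈ Q, (1 - (1 : ℝ) / nm q) ≤
      Real.exp (C + ∑ v ∈ B ⌊K⌋₊, (1 : ℝ) / nm v) * (1 / Real.log Y) ∧
      ∑ v ∈ Q, (1 : ℝ) / nm v ≤ Real.log (Real.log Y) + C := by
  classical
  have hy := abs_le.1 (hC Y hY)
  have h1 : ∀ v : Pr k, (0 : ℝ) ≤ 1 / nm v := fun v => by positivity
  have h2 : ∀ v : Pr k, (1 : ℝ) / nm v ≤ 1 := fun v => by
    have h3 := (card_quot5 v).2
    rw [div_le_one (by exact_mod_cast (by omega : 0 < nm v))]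
    exact_mod_cast (by omega : 1 ≤ nm v)
  have hlY : 0 < Real.log Y := Real.log_pos (by exact_mod_cast (by omega : 1 < Y))
  constructor
  · have hd : Disjoint MM Q := disjoint_right.2 fun q hq => ((hQ q).1 hq).2.2
    have hsub : B Y \ B ⌊K⌋₊ ⊆ MM ∪ Q := by
      intro v hv
      rw [mem_sdiff, hB, hB] at hv
      rw [mem_union, hQ]
      by_cases h4 : v ∈ MM
      · exact Or.inl h4
      · refine Or.inr ⟨?_, hv.1, h4⟩
        rw [Nat.le_floor_iff (by linarith)] at hv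
        exact not_le.1 hv.2
    have h4 : ∑ v ∈ B Y, (1 : ℝ) / nm v ≤
        ∑ v ∈ B ⌊K⌋₊, (1 : ℝ) / nm v + ∑ v ∈ B Y \ B ⌊K⌋₊, (1 : ℝ) / nm v := by
      have h5 : B Y ⊆ B ⌊K⌋₊ ∪ (B Y \ B ⌊K⌋₊) := by
        intro v hv
        rw [mem_union, mem_sdiff]
        tauto
      refine (sum_le_sum_of_subset_of_nonneg h5 fun v _ _ => h1 v).trans ?_
      rw [← sum_union_inter]
      have : (0 : ℝ) ≤ ∑ v ∈ B ⌊K⌋₊ ∩ (B Y \ B ⌊K⌋₊), (1 : ℝ) / nm v := sum_nonneg fun v _ => h1 v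
      linarith
    rw [← prod_union hd]
    calc ∏ q ∈ MM ∪ Q, (1 - (1 : ℝ) / nm q) ≤ ∏ q ∈ B Y \ B ⌊K⌋₊, (1 - (1 : ℝ) / nm q) := by
          rw [← prod_sdiff hsub]
          refine mul_le_of_le_one_left (prod_nonneg fun q _ => by linarith [h2 q]) ?_
          exact prod_le_one (fun q _ => by linarith [h2 q]) fun q _ => by linarith [h1 q]
      _ ≤ ∏ q ∈ B Y \ B ⌊K⌋₊, Real.exp (-((1 : ℝ) / nm q)) :=
          prod_le_prod (fun q _ => by linarith [h2 q]) fun q _ => Real.one_sub_le_exp_neg _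
      _ = Real.exp (-∑ q ∈ B Y \ B ⌊K⌋₊, (1 : ℝ) / nm q) := by rw [← Real.exp_sum, sum_neg_distrib]
      _ ≤ Real.exp ((C + ∑ v ∈ B ⌊K⌋₊, (1 : ℝ) / nm v) - Real.log (Real.log Y)) :=
          Real.exp_le_exp.2 (by linarith [hy.1])
      _ = _ := by rw [Real.exp_sub, Real.exp_log hlY]; ring
  · have h3 : Q ⊆ B Y := fun v hv => (hB Y v).2 ((hQ v).1 hv).2.1
    have h4 := sum_le_sum_of_subset_of_nonneg h3 (fun v _ _ => h1 v)
    linarith [hy.2]

/-- **BLOCK BTLR**: elements without prime factors between `K` and `Y`, with prescribed quadratic characters -/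
theorem btlr (hMe : StmtMert) : StmtBTLR := by
  classical
  intro k _ _ K hK
  obtain ⟨B, hB⟩ := exists_B5 k
  obtain ⟨C₀, hC₀⟩ := (hMe k B hB).2
  obtain ⟨C, hC⟩ : ∃ C, C = max C₀ 0 := ⟨_, rfl⟩
  have hCB : ∀ x : ℕ, 2 ≤ x → |∑ v ∈ B x, (1 : ℝ) / nm v - Real.log (Real.log x)| ≤ C :=
    fun x hx => (hC₀ x hx).trans (by rw [hC]; exact le_max_left _ _)
  have C0 : 0 ≤ C := by rw [hC]; exact le_max_right _ _
  obtain ⟨ι, _, b, c, hc, hι, hb⟩ := coord5 k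
  obtain ⟨D, hD⟩ : ∃ D, D = Module.finrank ℚ k := ⟨_, rfl⟩
  have hD1 : 1 ≤ D := by rw [hD]; exact Module.finrank_pos
  rw [← hD] at hι
  obtain ⟨h₀, hh₀⟩ := par5R hD1 C0
  obtain ⟨E, hE⟩ : ∃ E, E = Real.exp (C + ∑ v ∈ B ⌊K⌋₊, (1 : ℝ) / nm v) := ⟨_, rfl⟩
  have E0 : 0 < E := by rw [hE]; exact Real.exp_pos _
  refine ⟨(3 * c * K) ^ D * (E + 2), 4 * D, max h₀ 1, by positivity, ?_⟩
  intro h Y hh hY hYh MM hodd hA η T hT
  rw [← hD] at hT
  have hh1 : 1 ≤ h := (le_max_right _ _).trans hh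
  obtain ⟨r, hr⟩ := hh₀ h ((le_max_left _ _).trans hh)
  obtain ⟨ran, err⟩ := hr Y hY hYh
  obtain ⟨n, hn1, hn2, hn3⟩ := box5 hD1 hc hK hh1
  obtain ⟨N, hN⟩ : ∃ N, N = 2 * n + 1 := ⟨_, rfl⟩
  rw [← hN] at hn2 hn3
  simp only [← hN] at hn1
  have hN0 : (0 : ℝ) < N := by
    rw [hN]
    positivity
  have hlY : 0 < Real.log Y := Real.log_pos (by exact_mod_cast (by omega : 1 < Y))
  -- the product of the norms of the primes of `MM`
  have hpos : ∀ q : Pr k, 0 < nm q := fun q => by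
    have := (card_quot5 q).2
    omega
  have hMMr : ((∏ q ∈ MM, nm q : ℕ) : ℝ) ≤ (h : ℝ) ^ ((1 : ℝ) / (4 * D)) := by
    have h1 : ((∏ q ∈ MM, nm q : ℕ) : ℝ) ^ (4 * D) ≤ h := by exact_mod_cast hA
    have hD0 : (0 : ℝ) < D := by exact_mod_cast hD1
    calc ((∏ q ∈ MM, nm q : ℕ) : ℝ) = (((∏ q ∈ MM, nm q : ℕ) : ℝ) ^ (4 * D)) ^ ((1 : ℝ) / (4 * D)) := by
          rw [← Real.rpow_natCast, ← Real.rpow_mul (by positivity)]
          push_cast
          rw [mul_one_div_cancel (by positivity), Real.rpow_one]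
      _ ≤ _ := Real.rpow_le_rpow (by positivity) h1 (by positivity)
  -- the primes of the sieve
  obtain ⟨Q, hQd⟩ : ∃ Q, Q = (B Y \ B ⌊K⌋₊) \ MM := ⟨_, rfl⟩
  have hQ : ∀ q, q ∈ Q ↔ K < nm q ∧ nm q ≤ Y ∧ q ∉ MM := by
    intro q
    rw [hQd, mem_sdiff, mem_sdiff, hB, hB, Nat.le_floor_iff (by linarith), not_le]
    tauto
  obtain ⟨l1, l2⟩ := mert5R hB hCB K hK hY MM Q hQ
  rw [← hE] at l1
  have hδ1 : ∀ q : Pr k, (1 : ℝ) / nm q ≤ 1 := fun q => by
    rw [div_le_one (by exact_mod_cast hpos q)]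
    exact_mod_cast hpos q
  obtain ⟨-, p2, p3⟩ := prods5 Q (fun v => (1 : ℝ) / nm v) (fun q _ => by positivity)
    (fun q _ => hδ1 q) le_rfl l2
  -- the classes
  have hfin : ∀ q : Pr k, Finite (𝓞 k ⧸ q.asIdeal) := fun q => by
    apply Nat.finite_of_card_ne_zero
    rw [(card_quot5 q).1]
    exact (hpos q).ne'
  obtain ⟨G, hG⟩ : ∃ G : (q : Pr k) → Finset (𝓞 k ⧸ q.asIdeal),
      ∀ q g, g ∈ G q ↔ (g ≠ 0 ∧ (IsSquare g ↔ η q)) :=
    ⟨fun q => (Set.toFinite {g : 𝓞 k ⧸ q.asIdeal | g ≠ 0 ∧ (IsSquare g ↔ η q)}).toFinset,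
      fun q g => by simp⟩
  obtain ⟨γ, hγ⟩ : ∃ γ : ℝ, γ = (∏ q ∈ MM, ((G q).card : ℝ) / nm q) * N ^ D := ⟨_, rfl⟩
  have hγ0 : 0 ≤ γ := by rw [hγ]; positivity
  have hPM1 : ∏ q ∈ MM, (1 - (1 : ℝ) / nm q) ≤ 1 :=
    prod_le_one (fun q _ => by linarith [hδ1 q]) fun q _ => by
      have : (0 : ℝ) ≤ 1 / nm q := by positivity
      linarith
  have hPM0 : 0 ≤ ∏ q ∈ MM, (1 - (1 : ℝ) / nm q) := prod_nonneg fun q _ => by linarith [hδ1 q]
  have hγ1 : γ ≤ (1 / 2) ^ MM.card * (∏ q ∈ MM, (1 - (1 : ℝ) / nm q)) * ((3 * c * K) ^ D * h) := by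
    rw [hγ]
    refine mul_le_mul ?_ hn3 (by positivity) (by positivity)
    calc ∏ q ∈ MM, ((G q).card : ℝ) / nm q ≤ ∏ q ∈ MM, (1 / 2 : ℝ) * (1 - (1 : ℝ) / nm q) := by
          refine prod_le_prod (fun q _ => by positivity) fun q hq => ?_
          have h1 := sq_count5 q (hodd q hq) (η q) (G q) fun g hg => (hG q g).1 hg
          have h2 : (0 : ℝ) < nm q := by exact_mod_cast hpos q
          have h3 : 2 * (G q).card + 1 ≤ nm q := by
            have h4 : 2 * (G q).card ≤ nm q := by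
              have h5 : 2 * ((G q).card : ℝ) ≤ nm q := by linarith
              exact_mod_cast h5
            obtain ⟨u, hu⟩ := hodd q hq
            omega
          have h4 : 2 * ((G q).card : ℝ) + 1 ≤ nm q := by exact_mod_cast h3
          rw [div_le_iff₀ h2]
          have h5 : (1 / 2 : ℝ) * (1 - 1 / nm q) * nm q = (nm q - 1) / 2 := by
            field_simp
          rw [h5]
          linarith
      _ = (1 / 2) ^ MM.card * ∏ q ∈ MM, (1 - (1 : ℝ) / nm q) := by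
          rw [prod_mul_distrib, prod_const]
  -- the box and the sieve
  obtain ⟨W, hW⟩ : ∃ W : Finset (ι → ℤ), ∀ v, v ∈ W ↔ (∀ i, v i ∈ Finset.Ico (-(n : ℤ)) (-(n : ℤ) + N)) ∧
      ∀ q ∈ MM, Ideal.Quotient.mk q.asIdeal (∑ i, v i • b i) ∈ G q :=
    ⟨(Fintype.piFinset fun _ : ι => Finset.Ico (-(n : ℤ)) (-(n : ℤ) + N)).filter fun v =>
      ∀ q ∈ MM, Ideal.Quotient.mk q.asIdeal (∑ i, v i • b i) ∈ G q, fun v => by
        rw [mem_filter, Fintype.mem_piFinset]⟩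
  obtain ⟨M₀, hM₀⟩ : ∃ M₀, M₀ = (h : ℝ) ^ ((1 : ℝ) / (4 * D)) * Y ^ (2 * r) := ⟨_, rfl⟩
  have hM₀0 : 0 ≤ M₀ := by rw [hM₀]; positivity
  obtain ⟨er1, er2⟩ := err M₀ N hN0 hM₀.le hn2
  have hsieve := sieve5 Q W (fun q v => (∑ i, v i • b i) ∈ q.asIdeal) (fun v => (1 : ℝ) / nm v)
    (fun q _ => by positivity) r hγ0 (show 0 ≤ D * 2 ^ D * M₀ / N by positivity) (by
      intro S hS hSr
      have hS1 : ∏ q ∈ S, nm q ≤ Y ^ (2 * r) := by
        calc ∏ q ∈ S, nm q ≤ ∏ _q ∈ S, Y := prod_le_prod' fun q hq => ((hQ q).1 (hS hq)).2.1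
          _ = Y ^ S.card := by rw [prod_const]
          _ ≤ Y ^ (2 * r) := Nat.pow_le_pow_right (by omega) hSr
      have hSM : (((∏ q ∈ S, nm q) * ∏ q ∈ MM, nm q : ℕ) : ℝ) ≤ M₀ := by
        rw [hM₀, mul_comm]
        push_cast
        refine mul_le_mul ?_ ?_ (by positivity) (by positivity)
        · exact_mod_cast hMMr
        · exact_mod_cast hS1
      have h1 := count5 b (-(n : ℤ)) N S MM
        (disjoint_left.2 fun q hq => ((hQ q).1 (hS hq)).2.2) G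
        (by exact_mod_cast hSM.trans er1)
        (W.filter fun v => ∀ q ∈ S, (∑ i, v i • b i) ∈ q.asIdeal) (fun v => by
          rw [mem_filter, hW, and_assoc])
      rw [hι, ← hγ] at h1
      refine h1.trans (mul_le_mul_of_nonneg_left ?_ (by positivity))
      push_cast at hSM
      gcongr)
  -- the elements of `T`
  have hT1 : T.card ≤ (W.filter fun v => ∀ q ∈ Q, ¬ (∑ i, v i • b i) ∈ q.asIdeal).card := by
    refine card_le_card_of_injOn (fun x i => b.repr x i) ?_ ?_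
    · intro x hx
      obtain ⟨x1, -, x2, x3⟩ := hT x hx
      have e1 : ∑ i, b.repr x i • b i = x := b.sum_repr x
      rw [mem_coe, mem_filter, hW]
      simp only [e1]
      refine ⟨⟨fun i => hn1 _ (hb x _ x1 i), fun q hq => ?_⟩, fun q hq => ?_⟩
      · rw [hG]
        obtain ⟨x4, x5⟩ := x3 q hq
        exact ⟨fun h1 => x4 (Ideal.Quotient.eq_zero_iff_mem.1 h1), x5⟩
      · obtain ⟨q1, q2, _⟩ := (hQ q).1 hq
        exact x2 q q1 q2
    · intro x _ x' _ hxx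
      have h1 : b.repr x = b.repr x' := Finsupp.ext fun i => congrFun hxx i
      exact b.repr.injective h1
  -- the end
  have hPQ0 : 0 ≤ ∏ q ∈ Q, (1 - (1 : ℝ) / nm q) := prod_nonneg fun q _ => by linarith [hδ1 q]
  have f2 : (1 / 8 : ℝ) ^ (2 * r + 1) * ∏ q ∈ Q, (1 + 8 * ((1 : ℝ) / nm q)) ≤ 1 / Real.log Y := by
    refine le_trans (mul_le_mul (eighth5 r) p2 ?_ (Real.exp_pos _).le) ran
    exact prod_nonneg fun q _ => by positivity
  have f3 : (D * 2 ^ D * M₀ / N) * ∏ q ∈ Q, (1 + (1 : ℝ) / nm q) ≤ 1 / Real.log Y :=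
    (mul_le_mul_of_nonneg_left p3 (by positivity)).trans er2
  have f4 : (∏ q ∈ MM, (1 - (1 : ℝ) / nm q)) * (∏ q ∈ Q, (1 - (1 : ℝ) / nm q) +
      (1 / 8) ^ (2 * r + 1) * ∏ q ∈ Q, (1 + 8 * ((1 : ℝ) / nm q)) +
        (D * 2 ^ D * M₀ / N) * ∏ q ∈ Q, (1 + (1 : ℝ) / nm q)) ≤ (E + 2) * (1 / Real.log Y) := by
    have f5 : 0 ≤ 1 / Real.log Y := by positivity
    have f6 := mul_le_mul_of_nonneg_left f2 hPM0
    have f7 := mul_le_mul_of_nonneg_left f3 hPM0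
    have f8 := mul_le_of_le_one_left f5 hPM1
    rw [mul_add, mul_add]
    linarith
  have f9 : 0 ≤ ∏ q ∈ Q, (1 - (1 : ℝ) / nm q) +
      (1 / 8) ^ (2 * r + 1) * ∏ q ∈ Q, (1 + 8 * ((1 : ℝ) / nm q)) +
        (D * 2 ^ D * M₀ / N) * ∏ q ∈ Q, (1 + (1 : ℝ) / nm q) := by
    have g1 : 0 ≤ ∏ q ∈ Q, (1 + 8 * ((1 : ℝ) / nm q)) := prod_nonneg fun q _ => by positivity
    have g2 : 0 ≤ ∏ q ∈ Q, (1 + (1 : ℝ) / nm q) := prod_nonneg fun q _ => by positivity
    positivity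
  calc (T.card : ℝ) ≤ ((W.filter fun v => ∀ q ∈ Q, ¬ (∑ i, v i • b i) ∈ q.asIdeal).card : ℝ) := by
        exact_mod_cast hT1
    _ ≤ _ := hsieve
    _ ≤ _ := mul_le_mul_of_nonneg_right hγ1 f9
    _ = ((1 / 2) ^ MM.card * ((3 * c * K) ^ D * h)) * ((∏ q ∈ MM, (1 - (1 : ℝ) / nm q)) *
        (∏ q ∈ Q, (1 - (1 : ℝ) / nm q) +
          (1 / 8) ^ (2 * r + 1) * ∏ q ∈ Q, (1 + 8 * ((1 : ℝ) / nm q)) +
            (D * 2 ^ D * M₀ / N) * ∏ q ∈ Q, (1 + (1 : ℝ) / nm q))) := by ring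
    _ ≤ ((1 / 2) ^ MM.card * ((3 * c * K) ^ D * h)) * ((E + 2) * (1 / Real.log Y)) :=
        mul_le_mul_of_nonneg_left f4 (by positivity)
    _ = (3 * c * K) ^ D * (E + 2) * (1 / 2) ^ MM.card * (h / Real.log Y) := by ring

end

end Pool.Agent.HG
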